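import Pool.Agent.Helper58.SF.StB

/-!
# Project SF, module CNB: preimages of connected sets, levels are path connected
-/

set_option autoImplicit false

namespace Pool.Agent.Helper40.SF

open Set Topology Pool.Agent.Helper13.TR Pool.Agent.Helper58.SF

/-- The map `R s` from the level `t'` to the level `s` is closed. -/
private theorem closed_image {P : Type} [TopologicalSpace P] [TopologicalSpace.MetrizableSpace P]
    {r : P → ℝ} {R : ℝ → P → P} (hB : Box P r R) (hc : ∀ t : ℝ, 0 < t → Continuous (R t))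
    {s t' : ℝ} (hs : 0 < s) (hst : s ≤ t') (ht' : t' < 1) (C : Set P) (hC : IsClosed C) :
    IsClosed {x : P | ∃ y ∈ C, r y = t' ∧ R s y = x} := by
  letI : MetricSpace P := TopologicalSpace.metrizableSpaceMetric P
  rw [← isSeqClosed_iff_isClosed]
  intro xs x hxs hx
  choose ys hyC hyt hys using hxs
  -- all the points are in the level `s`
  have hrs : ∀ n, r (xs n) = s := by
    intro n
    rw [← hys n, hB.rR s _ hs, hyt n, min_eq_left hst]
  have hrx : r x = s := by
    have h1 : Filter.Tendsto (fun n => r (xs n)) Filter.atTop (nhds (r x)) :=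
      (hB.rc.tendsto x).comp hx
    have h2 : (fun n => r (xs n)) = fun _ => s := funext hrs
    rw [h2] at h1
    exact (tendsto_nhds_unique h1 tendsto_const_nhds)
  have hK0 : IsCompact (insert x (range xs)) := hx.isCompact_insert_range
  have hK0r : ∀ y ∈ insert x (range xs), r y = s := by
    intro y hy
    rcases mem_insert_iff.mp hy with rfl | ⟨n, rfl⟩
    · exact hrx
    · exact hrs n
  have hK := hB.cpt s t' _ hs hst ht' hK0 hK0r
  have hyK : ∀ n, ys n ∈ {y : P | s ≤ r y ∧ r y ≤ t' ∧ R s y ∈ insert x (range xs)} := by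
    intro n
    refine ⟨by rw [hyt n]; exact hst, (hyt n).le, ?_⟩
    rw [hys n]
    exact mem_insert_of_mem _ (mem_range_self n)
  obtain ⟨y, -, φ, hφ, hy⟩ := hK.tendsto_subseq hyK
  refine ⟨y, ?_, ?_, ?_⟩
  · exact hC.mem_of_tendsto hy (Filter.Eventually.of_forall fun n => hyC (φ n))
  · have h1 : Filter.Tendsto (fun n => r (ys (φ n))) Filter.atTop (nhds (r y)) :=
      (hB.rc.tendsto y).comp hy
    have h2 : (fun n => r (ys (φ n))) = fun _ => t' := funext fun n => hyt (φ n)
    rw [h2] at h1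
    exact (tendsto_nhds_unique h1 tendsto_const_nhds)
  · have h1 : Filter.Tendsto (fun n => R s (ys (φ n))) Filter.atTop (nhds (R s y)) :=
      ((hc s hs).tendsto y).comp hy
    have h2 : (fun n => R s (ys (φ n))) = xs ∘ φ := funext fun n => hys (φ n)
    rw [h2] at h1
    exact tendsto_nhds_unique h1 (hx.comp hφ.tendsto_atTop)

theorem hCNB : StCNA → StBEX → StLPL → StFLW → StCNB := by
  intro hCNA hBEX hLPL hFLW
  have part1 : ∀ (P : Type) [TopologicalSpace P] (r : P → ℝ) (R : ℝ → P → P) (dg : P → Ch P 3 → ℤ),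
      SB P r R dg → ∀ (s t' : ℝ) (A : Set P), 0 < s → s ≤ t' → t' < 1 → (∀ y ∈ A, r y = s) →
      IsPreconnected A → IsPreconnected {y : P | r y = t' ∧ R s y ∈ A} := by
    intro P _ r R dg hSB s t' A hs hst ht' hAs hA
    haveI := hSB.met
    have hc := (hFLW P r R hSB.box.toFlow).1
    rw [isPreconnected_closed_iff]
    rintro C1 C2 hC1 hC2 hsub ⟨y1, hy1, hy1C⟩ ⟨y2, hy2, hy2C⟩
    have hF1 := closed_image hSB.box hc hs hst ht' C1 hC1
    have hF2 := closed_image hSB.box hc hs hst ht' C2 hC2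
    have hcov : A ⊆ {x : P | ∃ y ∈ C1, r y = t' ∧ R s y = x} ∪
        {x : P | ∃ y ∈ C2, r y = t' ∧ R s y = x} := by
      intro x hx
      have hrx := hAs x hx
      obtain ⟨y, hy, hyt⟩ := (hBEX P r R dg hSB).1 x t' (by rw [hrx]; exact hst) ht'
      have hRy : R s y = x := by rw [← hrx]; exact hy.2
      rcases hsub (show y ∈ {y : P | r y = t' ∧ R s y ∈ A} from ⟨hyt, by rw [hRy]; exact hx⟩) with
        h | h
      · exact Or.inl ⟨y, h, hyt, hRy⟩
      · exact Or.inr ⟨y, h, hyt, hRy⟩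
    obtain ⟨x, hxA, ⟨z1, hz1C, hz1t, hz1x⟩, z2, hz2C, hz2t, hz2x⟩ :=
      (isPreconnected_closed_iff.mp hA) _ _ hF1 hF2 hcov
        ⟨R s y1, hy1.2, y1, hy1C, hy1.1, rfl⟩ ⟨R s y2, hy2.2, y2, hy2C, hy2.1, rfl⟩
    have hrx := hAs x hxA
    have hfib := hCNA P r R dg hSB x t' (by rw [hrx]; exact hst) ht'
    have hmem : ∀ z : P, r z = t' → R s z = x → z ∈ {y : P | r y = t' ∧ y ∈ Up r R x} := by
      intro z hzt hzx
      refine ⟨hzt, ?_, ?_⟩
      · rw [hrx, hzt]; exact hst
      · rw [hrx]; exact hzx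
    have hfsub : {y : P | r y = t' ∧ y ∈ Up r R x} ⊆ {y : P | r y = t' ∧ R s y ∈ A} := by
      rintro y ⟨hyt, hyU⟩
      refine ⟨hyt, ?_⟩
      have : R s y = x := by rw [← hrx]; exact hyU.2
      rw [this]; exact hxA
    obtain ⟨w, hw, hwC⟩ := (isPreconnected_closed_iff.mp hfib) C1 C2 hC1 hC2 (hfsub.trans hsub)
      ⟨z1, hmem z1 hz1t hz1x, hz1C⟩ ⟨z2, hmem z2 hz2t hz2x, hz2C⟩
    exact ⟨w, hfsub hw, hwC⟩
  refine ⟨fun P _ r R dg h => part1 P r R dg h, ?_⟩
  intro P _ r R dg hGB t ht ht1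
  haveI := hGB.met
  haveI := hGB.pc
  have hSB := hGB.toSB
  have hc := (hFLW P r R hSB.box.toFlow).1
  haveI := hLPL P r R dg hSB t ht ht1
  have hne : ({y : P | r y = t}).Nonempty := by
    obtain ⟨y0⟩ : Nonempty P := inferInstance
    rcases le_or_gt (r y0) t with h | h
    · obtain ⟨y, -, hy⟩ := (hBEX P r R dg hSB).1 y0 t h ht1
      exact ⟨y, hy⟩
    · exact ⟨R t y0, by
        change r (R t y0) = t
        rw [hSB.box.rR t y0 ht, min_eq_left h.le]⟩
  have hpre : IsPreconnected {y : P | r y = t} := by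
    refine isPreconnected_of_forall_pair fun p hp q hq => ?_
    obtain ⟨γ⟩ := PathConnectedSpace.joined p q
    have hcomp : IsCompact (range γ) := isCompact_range γ.continuous
    obtain ⟨m, hm, hmin⟩ := hcomp.exists_isMinOn (range_nonempty γ) hSB.box.rc.continuousOn
    set s : ℝ := min (r m) t with hsdef
    have hs : 0 < s := lt_min (hSB.box.pos m) ht
    have hst : s ≤ t := min_le_right _ _
    have hsr : ∀ y ∈ range γ, s ≤ r y := fun y hy => (min_le_left _ _).trans (hmin hy)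
    have hApre : IsPreconnected (R s '' range γ) :=
      (isPreconnected_range γ.continuous).image _ (hc s hs).continuousOn
    have hAs : ∀ y ∈ R s '' range γ, r y = s := by
      rintro _ ⟨y, hy, rfl⟩
      rw [hSB.box.rR s y hs, min_eq_left (hsr y hy)]
    refine ⟨{y : P | r y = t ∧ R s y ∈ R s '' range γ}, fun y hy => hy.1, ⟨hp, ?_⟩, ⟨hq, ?_⟩,
      part1 P r R dg hSB s t _ hs hst ht1 hAs hApre⟩
    · exact ⟨p, ⟨0, γ.source⟩, rfl⟩
    · exact ⟨q, ⟨1, γ.target⟩, rfl⟩
  rw [isPathConnected_iff_pathConnectedSpace]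
  rw [pathConnectedSpace_iff_connectedSpace]
  exact isConnected_iff_connectedSpace.mp ⟨hne, hpre⟩

end Pool.Agent.Helper40.SF
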